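import Pool.Agent.Q151.EN.Com

set_option autoImplicit false

/-! # Project EN, job COND: one more sign -/

namespace Pool.Agent.Q151.EN

open Finset MeasureTheory
open Pool.Agent.Q270.EN

/-- `log ((1 + x) / (1 - x)) ≥ 2 x` -/
lemma log_ge {x : ℝ} (h0 : 0 ≤ x) (h1 : x < 1) : 2 * x ≤ Real.log (1 + x) - Real.log (1 - x) := by
  have h := Real.hasSum_log_sub_log_of_abs_lt_one (x := x) (by rw [abs_of_nonneg h0]; exact h1)
  have h2 := sum_le_hasSum {0} (fun k _ => by positivity) h
  simpa using h2

/-- Pinsker's inequality for one bit -/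
lemma pinsker {m : ℝ} (h : |m| ≤ 1) :
    Real.negMulLog (1 + m) + Real.negMulLog (1 - m) ≤ -m ^ 2 := by
  have key : ∀ x : ℝ, 0 ≤ x → x ≤ 1 →
      Real.negMulLog (1 + x) + Real.negMulLog (1 - x) ≤ -x ^ 2 := by
    intro x hx0 hx1
    have hmono : MonotoneOn (fun x : ℝ => -x ^ 2 - Real.negMulLog (1 + x) -
        Real.negMulLog (1 - x)) (Set.Icc 0 1) := by
      have hd : ∀ y ∈ Set.Ioo (0 : ℝ) 1, HasDerivAt (fun x : ℝ => -x ^ 2 -
          Real.negMulLog (1 + x) - Real.negMulLog (1 - x))
          (Real.log (1 + y) - Real.log (1 - y) - 2 * y) y := by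
        intro y hy
        have a1 : HasDerivAt (fun x : ℝ => 1 + x) 1 y := (hasDerivAt_id y).const_add 1
        have a2 : HasDerivAt (fun x : ℝ => 1 - x) (-1) y := (hasDerivAt_id y).const_sub 1
        have b1 := (Real.hasDerivAt_negMulLog (x := 1 + y) (by have := hy.1; linarith)).comp y a1
        have b2 := (Real.hasDerivAt_negMulLog (x := 1 - y) (by have := hy.2; linarith)).comp y a2
        have b3 : HasDerivAt (fun x : ℝ => -x ^ 2) (-(2 * y)) y := by
          have h5 : HasDerivAt (fun x : ℝ => -x ^ 2) (-(((2 : ℕ) : ℝ) * y ^ (2 - 1))) y :=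
            (hasDerivAt_pow 2 y).neg
          refine h5.congr_deriv ?_
          simp
        have b4 := (b3.sub b1).sub b2
        refine b4.congr_deriv ?_
        ring
      apply monotoneOn_of_deriv_nonneg (convex_Icc 0 1)
      · apply Continuous.continuousOn
        have := Real.continuous_negMulLog
        fun_prop
      · rw [interior_Icc]
        intro y hy
        exact (hd y hy).differentiableAt.differentiableWithinAt
      · rw [interior_Icc]
        intro y hy
        rw [(hd y hy).deriv]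
        have := log_ge hy.1.le hy.2
        linarith
    have h1 := hmono (Set.left_mem_Icc.2 zero_le_one) ⟨hx0, hx1⟩ hx0
    simp only [add_zero, sub_zero, Real.negMulLog_one] at h1
    norm_num at h1
    linarith
  rcases le_total 0 m with h0 | h0
  · rw [abs_of_nonneg h0] at h
    exact key m h0 h
  · rw [abs_of_nonpos h0] at h
    have := key (-m) (by linarith) h
    rw [sub_neg_eq_add, ← sub_eq_add_neg, neg_sq] at this
    linarith

/-- the entropy of a split atom -/
lemma split_le {r s : ℝ} (hr : 0 ≤ r) (hs : 0 ≤ s) :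
    Real.negMulLog r + Real.negMulLog s ≤ Real.negMulLog (r + s) + (r + s) * Real.log 2 -
      (r + s) * ((r - s) / (r + s)) ^ 2 / 2 := by
  by_cases hq : r + s = 0
  · have h1 : r = 0 := by linarith
    have h2 : s = 0 := by linarith
    subst h1 h2
    simp
  obtain ⟨q, hqd⟩ : ∃ q, q = r + s := ⟨_, rfl⟩
  have hq0 : 0 < q := by
    rw [hqd]
    exact lt_of_le_of_ne (by linarith) (Ne.symm hq)
  obtain ⟨m, hm⟩ : ∃ m, m = (r - s) / q := ⟨_, rfl⟩
  have hr' : r = q * ((1 + m) * 2⁻¹) := by
    rw [hm]; field_simp; rw [hqd]; ring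
  have hs' : s = q * ((1 - m) * 2⁻¹) := by
    rw [hm]; field_simp; rw [hqd]; ring
  have hm1 : |m| ≤ 1 := by
    rw [hm, abs_div, abs_of_pos hq0, div_le_one hq0, abs_le, hqd]
    constructor <;> linarith
  have h1 := pinsker hm1
  rw [← hqd, ← hm]
  have e1 : Real.negMulLog (2⁻¹ : ℝ) = 2⁻¹ * Real.log 2 := by
    rw [Real.negMulLog, Real.log_inv]; ring
  have e2 : Real.negMulLog r = (1 + m) * 2⁻¹ * Real.negMulLog q +
      q * (2⁻¹ * Real.negMulLog (1 + m) + (1 + m) * (2⁻¹ * Real.log 2)) := by
    rw [hr', Real.negMulLog_mul, Real.negMulLog_mul, e1]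
  have e3 : Real.negMulLog s = (1 - m) * 2⁻¹ * Real.negMulLog q +
      q * (2⁻¹ * Real.negMulLog (1 - m) + (1 - m) * (2⁻¹ * Real.log 2)) := by
    rw [hs', Real.negMulLog_mul, Real.negMulLog_mul, e1]
  have h2 := mul_le_mul_of_nonneg_left h1 hq0.le
  rw [e2, e3]
  nlinarith

/-- **COND.** -/
theorem t_COND : S_COND := by
  intro Ω _ μ _ e he U p hp
  obtain ⟨q, hq⟩ : ∃ q : Finset ℕ → ℝ, ∀ a, q a = μ.real {ω | neg e U ω = a} :=
    ⟨_, fun _ => rfl⟩
  obtain ⟨r, hr⟩ : ∃ r : Finset ℕ → ℝ, ∀ a, r a = μ.real {ω | neg e (insert p U) ω = a} :=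
    ⟨_, fun _ => rfl⟩
  obtain ⟨s, hs⟩ : ∃ s : Finset ℕ → ℝ, ∀ a, s a =
      μ.real {ω | neg e (insert p U) ω = insert p a} := ⟨_, fun _ => rfl⟩
  have hr0 : ∀ a, 0 ≤ r a := fun a => by rw [hr]; exact measureReal_nonneg
  have hs0 : ∀ a, 0 ≤ s a := fun a => by rw [hs]; exact measureReal_nonneg
  have hqs : ∀ a ∈ U.powerset, q a = r a + s a := by
    intro a ha
    have h1 := integral_insert (μ := μ) he hp (fun c => if c = a then (1 : ℝ) else 0)
      (fun _ => 1)
    simp only [one_smul, mul_one] at h1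
    simp only [← hs] at h1
    simp only [← hr] at h1
    rw [integral_fun he U (fun c => if c = a then (1 : ℝ) else 0)] at h1
    simp only [← hq, smul_eq_mul, mul_ite, mul_one, mul_zero] at h1
    rw [sum_ite_eq' U.powerset a, sum_ite_eq' U.powerset a, if_pos ha, if_pos ha] at h1
    exact h1
  have hq0 : ∀ a, a ∉ U.powerset → q a = 0 := by
    intro a ha
    rw [hq]
    have : {ω | neg e U ω = a} = ∅ := by
      ext ω
      constructor
      · intro h
        exact (ha (mem_powerset.2 (h ▸ neg_sub U ω))).elim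
      · intro h; exact h.elim
    rw [this]
    simp
  obtain ⟨M, hM⟩ : ∃ M : Finset ℕ → ℝ, ∀ a, M a = (r a - s a) / q a := ⟨_, fun _ => rfl⟩
  have hqM : ∀ a ∈ U.powerset, q a * M a = r a - s a := by
    intro a ha
    rw [hM]
    by_cases h : q a = 0
    · have h2 := hqs a ha
      have h3 := hr0 a
      have h4 := hs0 a
      have h5 : r a = 0 := by linarith
      have h6 : s a = 0 := by linarith
      rw [h5, h6, h]; simp
    · field_simp
  refine ⟨M, ?_, ?_, ?_⟩
  · intro a
    by_cases ha : a ∈ U.powerset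
    · rw [hM, abs_div]
      have h2 := hqs a ha
      have h3 := hr0 a
      have h4 := hs0 a
      apply div_le_one_of_le₀ _ (abs_nonneg _)
      rw [abs_of_nonneg (by rw [h2]; linarith : 0 ≤ q a), abs_le, h2]
      constructor <;> linarith
    · rw [hM, hq0 a ha]
      simp
  · intro Y
    have h1 : (fun ω => (e p ω : ℂ) * Y (neg e U ω)) =
        fun ω => (fun c : Finset ℕ => if p ∈ c then (-1 : ℝ) else 1) (neg e (insert p U) ω) •
          Y (neg e U ω) := by
      ext ω
      rw [Complex.real_smul, sgn_eq he (mem_insert_self p U) ω]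
    have h2 : (fun ω => (M (neg e U ω) : ℂ) * Y (neg e U ω)) =
        fun ω => (fun a => M a • Y a) (neg e U ω) := by
      ext ω
      exact (Complex.real_smul).symm
    rw [h1, h2, integral_insert he hp Y (fun c : Finset ℕ => if p ∈ c then (-1 : ℝ) else 1),
      integral_fun he U (fun a => M a • Y a)]
    refine sum_congr rfl fun a ha => ?_
    have hpa : p ∉ a := fun h => hp (mem_powerset.1 ha h)
    rw [← hr, ← hs, ← hq, smul_smul, hqM a ha, if_neg hpa, if_pos (mem_insert_self p a)]
    congr 1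
    ring
  · rw [integral_fun he U (fun a => M a ^ 2)]
    have h1 : ent μ e (insert p U) = ∑ a ∈ U.powerset,
        (Real.negMulLog (r a) + Real.negMulLog (s a)) := by
      unfold ent
      rw [Finset.sum_powerset_insert hp, ← sum_add_distrib]
      refine sum_congr rfl fun a _ => ?_
      rw [hr, hs]
    have h2 : ent μ e U = ∑ a ∈ U.powerset, Real.negMulLog (q a) := by
      unfold ent
      exact sum_congr rfl fun a _ => by rw [hq]
    have h3 : ∑ a ∈ U.powerset, q a = 1 := by
      rw [← sum_one (μ := μ) he U]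
      exact sum_congr rfl fun a _ => by rw [hq]
    have h4 : ∑ a ∈ U.powerset, (Real.negMulLog (r a) + Real.negMulLog (s a)) ≤
        ∑ a ∈ U.powerset, (Real.negMulLog (q a) + q a * Real.log 2 - q a * M a ^ 2 / 2) := by
      refine sum_le_sum fun a ha => ?_
      have := split_le (hr0 a) (hs0 a)
      rw [← hqs a ha, ← hM] at this
      exact this
    have h6 : ∑ a ∈ U.powerset, (Real.negMulLog (q a) + q a * Real.log 2 - q a * M a ^ 2 / 2) =
        ent μ e U + Real.log 2 - (∑ a ∈ U.powerset, q a * M a ^ 2) / 2 := by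
      rw [sum_sub_distrib, sum_add_distrib, ← sum_mul, h3, one_mul, ← sum_div, ← h2]
    rw [h6, ← h1] at h4
    have h5 : ∑ a ∈ U.powerset, μ.real {ω | neg e U ω = a} • M a ^ 2 =
        ∑ a ∈ U.powerset, q a * M a ^ 2 :=
      sum_congr rfl fun a _ => by rw [hq, smul_eq_mul]
    rw [h5]
    linarith

end Pool.Agent.Q151.EN
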