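import Pool.Agent.Q270.EN.Stm

set_option autoImplicit false

/-! # Project EN: common lemmas on the negative set of random signs -/

namespace Pool.Agent.Q151.EN

open Finset MeasureTheory
open Pool.Agent.Q270.EN

section

variable {Ω : Type} [MeasurableSpace Ω] {μ : Measure Ω} {e : ℕ → Ω → ℝ}

lemma mem_neg {S : Finset ℕ} {ω : Ω} {p : ℕ} : p ∈ neg e S ω ↔ p ∈ S ∧ e p ω = -1 := by
  unfold neg
  exact Finset.mem_filter

lemma neg_sub (S : Finset ℕ) (ω : Ω) : neg e S ω ⊆ S := fun _ h => (mem_neg.1 h).1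

lemma neg_restrict {S S' : Finset ℕ} (h : S' ⊆ S) (ω : Ω) : neg e S' ω = neg e S ω ∩ S' := by
  ext p
  rw [mem_inter, mem_neg, mem_neg]
  constructor
  · rintro ⟨h1, h2⟩; exact ⟨⟨h h1, h2⟩, h1⟩
  · rintro ⟨⟨_, h2⟩, h1⟩; exact ⟨h1, h2⟩

/-- the sign is a function of the negative set -/
lemma sgn_eq (he : Sgn e) {S : Finset ℕ} {p : ℕ} (hp : p ∈ S) (ω : Ω) :
    e p ω = if p ∈ neg e S ω then -1 else 1 := by
  by_cases h : e p ω = -1
  · rw [if_pos (mem_neg.2 ⟨hp, h⟩), h]
  · rw [if_neg (fun hh => h (mem_neg.1 hh).2)]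
    exact (he.val p ω).resolve_right h

lemma neg_erase {U : Finset ℕ} {p : ℕ} (hp : p ∉ U) (ω : Ω) :
    (neg e (insert p U) ω).erase p = neg e U ω := by
  ext q
  rw [mem_erase, mem_neg, mem_neg, mem_insert]
  constructor
  · rintro ⟨h1, h2 | h2, h3⟩
    · exact absurd h2 h1
    · exact ⟨h2, h3⟩
  · rintro ⟨h1, h2⟩
    exact ⟨fun h => hp (h ▸ h1), Or.inr h1, h2⟩

lemma meas_one (he : Sgn e) (p : ℕ) : MeasurableSet {ω | e p ω = -1} :=
  (he.meas p) (measurableSet_singleton _)

/-- the event that the negative set is `a` -/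
lemma meas_neg (he : Sgn e) (S a : Finset ℕ) : MeasurableSet {ω | neg e S ω = a} := by
  have h : {ω | neg e S ω = a} = ⋂ p : ℕ, {ω | p ∈ neg e S ω ↔ p ∈ a} := by
    ext ω
    simp only [Set.mem_setOf_eq, Set.mem_iInter]
    exact Finset.ext_iff
  rw [h]
  refine MeasurableSet.iInter fun p => ?_
  have h1 : MeasurableSet {ω | p ∈ neg e S ω} := by
    by_cases hp : p ∈ S
    · have : {ω | p ∈ neg e S ω} = {ω | e p ω = -1} := by
        ext ω
        simp only [Set.mem_setOf_eq, mem_neg, hp, true_and]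
      rw [this]
      exact meas_one he p
    · have : {ω | p ∈ neg e S ω} = ∅ := by
        ext ω
        simp only [Set.mem_setOf_eq, mem_neg, hp, false_and, Set.mem_empty_iff_false]
      rw [this]
      exact MeasurableSet.empty
  by_cases ha : p ∈ a
  · simpa only [ha, iff_true] using h1
  · simp only [ha, iff_false]
    exact h1.compl

/-- a function of the negative set is a simple function -/
lemma fun_eq {E : Type} [AddCommMonoid E] (S : Finset ℕ) (F : Finset ℕ → E) (ω : Ω) :
    F (neg e S ω) = ∑ a ∈ S.powerset, ({ω | neg e S ω = a}.indicator fun _ => F a) ω := by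
  rw [sum_eq_single (neg e S ω)]
  · rw [Set.indicator_of_mem]
    rfl
  · intro b _ hb
    rw [Set.indicator_of_notMem]
    exact fun h => hb h.symm
  · intro h
    exact absurd (mem_powerset.2 (neg_sub S ω)) h

lemma meas_fun {E : Type} [AddCommMonoid E] [MeasurableSpace E] [MeasurableAdd₂ E]
    (he : Sgn e) (S : Finset ℕ) (F : Finset ℕ → E) :
    Measurable fun ω => F (neg e S ω) := by
  have : (fun ω => F (neg e S ω)) =
      fun ω => ∑ a ∈ S.powerset, ({ω | neg e S ω = a}.indicator fun _ => F a) ω := by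
    ext ω; exact fun_eq S F ω
  rw [this]
  exact Finset.measurable_fun_sum _ fun a _ => measurable_const.indicator (meas_neg he S a)

variable {E : Type} [NormedAddCommGroup E] [NormedSpace ℝ E]

lemma int_fun [IsFiniteMeasure μ] (he : Sgn e) (S : Finset ℕ) (F : Finset ℕ → E) :
    Integrable (fun ω => F (neg e S ω)) μ := by
  have : (fun ω => F (neg e S ω)) =
      fun ω => ∑ a ∈ S.powerset, ({ω | neg e S ω = a}.indicator fun _ => F a) ω := by
    ext ω; exact fun_eq S F ω
  rw [this]
  exact integrable_finset_sum _ fun a _ => (integrable_const _).indicator (meas_neg he S a)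

/-- the integral of a function of the negative set -/
lemma integral_fun [CompleteSpace E] [IsFiniteMeasure μ] (he : Sgn e) (S : Finset ℕ)
    (F : Finset ℕ → E) :
    ∫ ω, F (neg e S ω) ∂μ = ∑ a ∈ S.powerset, μ.real {ω | neg e S ω = a} • F a := by
  have : (fun ω => F (neg e S ω)) =
      fun ω => ∑ a ∈ S.powerset, ({ω | neg e S ω = a}.indicator fun _ => F a) ω := by
    ext ω; exact fun_eq S F ω
  rw [this, integral_finset_sum _ fun a _ => (integrable_const _).indicator (meas_neg he S a)]
  refine sum_congr rfl fun a _ => ?_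
  rw [integral_indicator_const _ (meas_neg he S a)]

lemma sum_one [IsProbabilityMeasure μ] (he : Sgn e) (S : Finset ℕ) :
    ∑ a ∈ S.powerset, μ.real {ω | neg e S ω = a} = 1 := by
  have h := integral_fun (μ := μ) he S (fun _ => (1 : ℝ))
  simp only [integral_const, smul_eq_mul, mul_one, probReal_univ] at h
  exact h.symm

/-- splitting with respect to one more sign -/
lemma integral_insert [CompleteSpace E] [IsFiniteMeasure μ] (he : Sgn e) {U : Finset ℕ} {p : ℕ}
    (hp : p ∉ U) (Y : Finset ℕ → E) (b : Finset ℕ → ℝ) :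
    ∫ ω, b (neg e (insert p U) ω) • Y (neg e U ω) ∂μ =
      ∑ a ∈ U.powerset, (μ.real {ω | neg e (insert p U) ω = a} * b a +
        μ.real {ω | neg e (insert p U) ω = insert p a} * b (insert p a)) • Y a := by
  have h1 : (fun ω => b (neg e (insert p U) ω) • Y (neg e U ω)) =
      fun ω => (fun c : Finset ℕ => b c • Y (c.erase p)) (neg e (insert p U) ω) := by
    ext ω
    simp only [neg_erase hp]
  rw [h1, integral_fun he (insert p U) (fun c => b c • Y (c.erase p)),
    Finset.sum_powerset_insert hp, ← sum_add_distrib]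
  refine sum_congr rfl fun a ha => ?_
  have hpa : p ∉ a := fun h => hp (mem_powerset.1 ha h)
  rw [erase_eq_of_notMem hpa, erase_insert hpa, smul_smul, smul_smul, add_smul]

end

end Pool.Agent.Q151.EN
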