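import Pool.Agent.Q151.EN.Com

set_option autoImplicit false

/-! # Project EN, job MIX: sharpness -/

namespace Pool.Agent.Q151.EN

open Finset MeasureTheory
open Pool.Agent.Q270.EN

/-- a fair coin -/
noncomputable def coin : Measure Bool := (PMF.uniformOfFintype Bool).toMeasure

noncomputable instance : IsProbabilityMeasure coin := by
  unfold coin
  infer_instance

lemma coin_real (b : Bool) : coin {b} = 2⁻¹ := by
  unfold coin
  rw [PMF.toMeasure_apply_singleton _ _ (measurableSet_singleton _)]
  simp [PMF.uniformOfFintype_apply]

/-- independent fair coins -/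
noncomputable def cm : Measure (ℕ → Bool) := Measure.infinitePi fun _ : ℕ => coin

noncomputable instance : IsProbabilityMeasure cm := by
  unfold cm
  infer_instance

/-- the signs -/
noncomputable def es (p : ℕ) (ω : ℕ → Bool) : ℝ := if ω p = true then 1 else -1

lemma es_sgn : Sgn es := by
  refine ⟨fun p => ?_, fun p ω => ?_⟩
  · unfold es
    have h1 : Measurable fun b : Bool => if b = true then (1 : ℝ) else -1 := measurable_of_finite _
    exact h1.comp (measurable_pi_apply p)
  · unfold es
    split_ifs
    · left; rfl
    · right; rfl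

lemma es_neg (p : ℕ) (ω : ℕ → Bool) : es p ω = -1 ↔ ω p = false := by
  unfold es
  cases h : ω p
  · simp
  · simp; norm_num

lemma cm_real {S a : Finset ℕ} (ha : a ⊆ S) : cm.real {ω | neg es S ω = a} = (2 ^ S.card)⁻¹ := by
  have h1 : {ω : ℕ → Bool | neg es S ω = a} =
      Set.pi (S : Set ℕ) fun i => {if i ∈ a then false else true} := by
    ext ω
    simp only [Set.mem_pi, Finset.mem_coe, Set.mem_singleton_iff]
    constructor
    · intro h i hi
      have h' : neg es S ω = a := h
      split_ifs with hia
      · rw [← h', mem_neg] at hia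
        exact (es_neg i ω).1 hia.2
      · by_contra hc
        have hc' : ω i = false := by
          cases h2 : ω i
          · rfl
          · exact absurd h2 hc
        apply hia
        rw [← h', mem_neg]
        exact ⟨hi, (es_neg i ω).2 hc'⟩
    · intro h
      show neg es S ω = a
      ext i
      rw [mem_neg, es_neg]
      constructor
      · rintro ⟨hi, h2⟩
        have h3 := h i hi
        by_contra hia
        rw [if_neg hia, h2] at h3
        exact absurd h3 (by decide)
      · intro hia
        have h3 := h i (ha hia)
        rw [if_pos hia] at h3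
        exact ⟨ha hia, h3⟩
  rw [h1, measureReal_def, cm, Measure.infinitePi_pi _ fun i _ => measurableSet_singleton _]
  simp only [coin_real, prod_const]
  rw [ENNReal.toReal_pow, ENNReal.toReal_inv, inv_pow]
  simp

/-- **MIX.** -/
theorem t_MIX : S_MIX := by
  intro η hη0 hη1
  obtain ⟨μ, hμ⟩ : ∃ μ : Measure (ℕ → Bool), μ = ENNReal.ofReal (1 - η) • cm +
      ENNReal.ofReal η • Measure.dirac (fun _ => true) := ⟨_, rfl⟩
  have hprob : IsProbabilityMeasure μ := by
    constructor
    rw [hμ, Measure.add_apply, Measure.smul_apply, Measure.smul_apply, measure_univ, measure_univ,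
      smul_eq_mul, smul_eq_mul, mul_one, mul_one, ← ENNReal.ofReal_add (by linarith) hη0.le]
    simp
  have hreal : ∀ A : Set (ℕ → Bool), μ.real A = (1 - η) * cm.real A +
      η * (Measure.dirac (fun _ : ℕ => true)).real A := by
    intro A
    have g1 : (ENNReal.ofReal (1 - η) • cm) A ≠ ⊤ := by
      rw [Measure.smul_apply, smul_eq_mul]
      exact ENNReal.mul_ne_top ENNReal.ofReal_ne_top (measure_ne_top _ _)
    have g2 : (ENNReal.ofReal η • Measure.dirac (fun _ : ℕ => true)) A ≠ ⊤ := by
      rw [Measure.smul_apply, smul_eq_mul]
      exact ENNReal.mul_ne_top ENNReal.ofReal_ne_top (measure_ne_top _ _)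
    rw [hμ, measureReal_add_apply g1 g2, measureReal_ennreal_smul_apply,
      measureReal_ennreal_smul_apply, ENNReal.toReal_ofReal (by linarith),
      ENNReal.toReal_ofReal hη0.le]
  refine ⟨ℕ → Bool, inferInstance, μ, hprob, es, es_sgn, fun S => ?_, ?_⟩
  · -- entropy
    obtain ⟨n, hn⟩ : ∃ n, n = S.card := ⟨_, rfl⟩
    have h1 : ∀ a ∈ S.powerset, (1 - η) * Real.negMulLog ((2 ^ n)⁻¹ : ℝ) ≤
        Real.negMulLog (μ.real {ω | neg es S ω = a}) := by
      intro a ha
      rw [hreal, cm_real (mem_powerset.1 ha), ← hn]
      have hdirac : (Measure.dirac (fun _ : ℕ => true)).real {ω | neg es S ω = a} = 0 ∨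
          (Measure.dirac (fun _ : ℕ => true)).real {ω | neg es S ω = a} = 1 := by
        by_cases h : (fun _ : ℕ => true) ∈ {ω | neg es S ω = a}
        · right
          rw [measureReal_def, Measure.dirac_apply_of_mem h]; simp
        · left
          rw [measureReal_def, Measure.dirac_apply' _ (meas_neg es_sgn S a),
            Set.indicator_of_notMem h]
          simp
      have hc := Real.concaveOn_negMulLog.2 (x := ((2 ^ n)⁻¹ : ℝ))
        (y := (Measure.dirac (fun _ : ℕ => true)).real {ω | neg es S ω = a})
        (by simp only [Set.mem_Ici]; positivity) (by simp only [Set.mem_Ici]; exact measureReal_nonneg)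
        (by linarith : 0 ≤ 1 - η) hη0.le (by ring)
      simp only [smul_eq_mul] at hc
      refine le_trans ?_ hc
      rcases hdirac with h | h <;> rw [h] <;> simp
    have h2 : ent μ es S ≥ (1 - η) * (n * Real.log 2) := by
      unfold ent
      refine le_trans (le_of_eq ?_) (sum_le_sum h1)
      rw [sum_const, card_powerset, ← hn, nsmul_eq_mul, Real.negMulLog, Real.log_inv, Real.log_pow]
      push_cast
      have : (2 : ℝ) ^ n ≠ 0 := by positivity
      field_simp
    unfold defic
    rw [← hn]
    linarith
  · rw [hreal]
    have h1 : (Measure.dirac (fun _ : ℕ => true)).real {ω : ℕ → Bool | ∀ p, es p ω = 1} = 1 := by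
      rw [measureReal_def, Measure.dirac_apply_of_mem]
      · simp
      · intro p
        simp [es]
    rw [h1]
    have h2 : 0 ≤ (1 - η) * cm.real {ω : ℕ → Bool | ∀ p, es p ω = 1} :=
      mul_nonneg (by linarith) measureReal_nonneg
    linarith

end Pool.Agent.Q151.EN
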